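import Pool.Agent.Run7.h987.SE.Iface

/-!
# Project SE, piece CARD: at most continuum many actions
-/

set_option autoImplicit false

open MeasureTheory Set
open scoped ENNReal symmDiff

noncomputable section

namespace Run7.h313.SE.Card

open Pool.Agent.Run7.h987.SE
open Cardinal

lemma card_fun (I A : Type) [Countable I] (h : #A ≤ 𝔠) : #(I → A) ≤ 𝔠 := by
  rw [← Cardinal.power_def]
  calc #A ^ #I ≤ 𝔠 ^ #I := Cardinal.power_le_power_right h
    _ ≤ 𝔠 ^ ℵ₀ := Cardinal.power_le_power_left Cardinal.continuum_ne_zero Cardinal.mk_le_aleph0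
    _ = 𝔠 := Cardinal.continuum_power_aleph0

lemma card_meas (X : Type) [MeasurableSpace X] [StandardBorelSpace X] :
    #{s : Set X // MeasurableSet s} ≤ 𝔠 := by
  obtain ⟨b, hb, heq⟩ := (inferInstance : MeasurableSpace.CountablyGenerated X)
  have h1 : #b ≤ 𝔠 := (hb.le_aleph0).trans Cardinal.aleph0_le_continuum
  have h2 := MeasurableSpace.cardinal_measurableSet_le_continuum h1
  rw [← heq] at h2
  exact h2

lemma card_maps (X : Type) [MeasurableSpace X] [StandardBorelSpace X] :
    #{f : X → X // Measurable f} ≤ 𝔠 := by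
  obtain ⟨φ, hφ⟩ := exists_measurableEmbedding_real X
  let J : {f : X → X // Measurable f} → (ℚ → {s : Set X // MeasurableSet s}) := fun f q =>
    ⟨{x | φ (f.1 x) < (q : ℝ)}, measurableSet_lt (hφ.measurable.comp f.2) measurable_const⟩
  have hJ : Function.Injective J := by
    intro f g hfg
    apply Subtype.ext
    funext x
    apply hφ.injective
    have key : ∀ q : ℚ, φ (f.1 x) < q ↔ φ (g.1 x) < q := by
      intro q
      have h1 := congrArg Subtype.val (congrFun hfg q)
      have h2 : x ∈ {x | φ (f.1 x) < (q : ℝ)} ↔ x ∈ {x | φ (g.1 x) < (q : ℝ)} := by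
        change x ∈ (J f q).1 ↔ x ∈ (J g q).1
        rw [h1]
      exact h2
    rcases lt_trichotomy (φ (f.1 x)) (φ (g.1 x)) with h | h | h
    · obtain ⟨q, hq1, hq2⟩ := exists_rat_btwn h
      exact absurd ((key q).1 hq1) (not_lt.2 hq2.le)
    · exact h
    · obtain ⟨q, hq1, hq2⟩ := exists_rat_btwn h
      exact absurd ((key q).2 hq1) (not_lt.2 hq2.le)
  exact (Cardinal.mk_le_of_injective hJ).trans (card_fun ℚ _ (card_meas X))

theorem t_CARD : P_CARD := by
  intro Γ _ _ X _ _ μ
  let J : PMPAction Γ X μ → (Γ → {f : X → X // Measurable f}) := fun a g => ⟨a.act g, a.meas g⟩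
  have hJ : Function.Injective J := by
    intro a b hab
    apply PMPAction.ext
    funext g
    exact congrArg Subtype.val (congrFun hab g)
  exact (Cardinal.mk_le_of_injective hJ).trans (card_fun Γ _ (card_maps X))

end Run7.h313.SE.Card
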