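import Pool.Agent.Run7.h987.SE.Iface

/-!
# Project SE, piece DENS: Walsh polynomials approximate indicators in `L²`
-/

set_option autoImplicit false

open MeasureTheory Set
open scoped ENNReal symmDiff

noncomputable section

namespace Run7.h313.SE

open Pool.Agent.Run7.h987.SE

variable {Γ : Type}

/-- the sign of a bit -/
def sg (b : Bool) : ℝ := if b then 1 else -1

lemma sg_sq (b : Bool) : sg b * sg b = 1 := by cases b <;> simp [sg]

/-- the span of the Walsh functions -/
def W (Γ : Type) : Submodule ℝ ((Γ → Bool) → ℝ) :=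
  Submodule.span ℝ (range (fun S : Finset Γ => (walsh S : (Γ → Bool) → ℝ)))

lemma walsh_empty : (walsh (∅ : Finset Γ) : (Γ → Bool) → ℝ) = fun _ => 1 := by
  funext x; simp [walsh]

lemma one_mem : (fun _ => 1 : (Γ → Bool) → ℝ) ∈ W Γ := by
  rw [← walsh_empty]
  exact Submodule.subset_span ⟨∅, rfl⟩

open Classical in
lemma sg_mul_walsh (i : Γ) (S : Finset Γ) : ∃ T : Finset Γ, ∀ x : Γ → Bool,
    sg (x i) * walsh S x = walsh T x := by
  by_cases hi : i ∈ S
  · refine ⟨S.erase i, fun x => ?_⟩
    unfold walsh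
    rw [← Finset.mul_prod_erase S _ hi, ← mul_assoc]
    have : sg (x i) * (if x i = true then (1 : ℝ) else -1) = 1 := sg_sq (x i)
    rw [this, one_mul]
  · refine ⟨insert i S, fun x => ?_⟩
    unfold walsh
    rw [Finset.prod_insert hi]
    rfl

lemma sg_mul_mem (i : Γ) {f : (Γ → Bool) → ℝ} (hf : f ∈ W Γ) :
    (fun x => sg (x i) * f x) ∈ W Γ := by
  unfold W at hf ⊢
  induction hf using Submodule.span_induction with
  | mem g hg =>
    obtain ⟨S, rfl⟩ := hg
    obtain ⟨T, hT⟩ := sg_mul_walsh i S
    have : (fun x : Γ → Bool => sg (x i) * walsh S x) = walsh T := funext hT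
    simp only
    rw [this]
    exact Submodule.subset_span ⟨T, rfl⟩
  | zero =>
    have e : (fun x : Γ → Bool => sg (x i) * (0 : (Γ → Bool) → ℝ) x) = 0 := by
      funext x; simp
    rw [e]; exact Submodule.zero_mem _
  | add g h _ _ hg hh =>
    have := Submodule.add_mem _ hg hh
    convert this using 1
    funext x
    simp only [Pi.add_apply]
    ring
  | smul a g _ hg =>
    have := Submodule.smul_mem _ a hg
    convert this using 1
    funext x
    simp only [Pi.smul_apply, smul_eq_mul]
    ring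

lemma prod_mem {ι : Type} (t : Finset ι) (g : ι → Γ) (a b : ι → ℝ) :
    (fun x : Γ → Bool => ∏ i ∈ t, (a i + b i * sg (x (g i)))) ∈ W Γ := by
  classical
  induction t using Finset.induction_on with
  | empty => simpa using one_mem (Γ := Γ)
  | insert i t hi ih =>
    have h1 := Submodule.add_mem _ (Submodule.smul_mem _ (a i) ih)
      (Submodule.smul_mem _ (b i) (sg_mul_mem (g i) ih))
    convert h1 using 1
    funext x
    rw [Finset.prod_insert hi]
    simp only [Pi.add_apply, Pi.smul_apply, smul_eq_mul]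
    ring

lemma bit (b c : Bool) : (1 / 2 + 1 / 2 * sg b * sg c : ℝ) = if b = c then 1 else 0 := by
  cases b <;> cases c <;> norm_num [sg]

lemma cyl_mem (s : Finset Γ) (S : Set (s → Bool)) :
    (cylinder (α := fun _ : Γ => Bool) s S).indicator (fun _ => (1 : ℝ)) ∈ W Γ := by
  classical
  have h1 : (cylinder (α := fun _ : Γ => Bool) s S).indicator (fun _ => (1 : ℝ)) =
      ∑ b ∈ (Finset.univ : Finset (s → Bool)).filter (fun b => b ∈ S),
        (fun x : Γ → Bool => ∏ i ∈ (Finset.univ : Finset s),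
          (1 / 2 + (1 / 2 * sg (b i)) * sg (x (i : Γ)))) := by
    funext x
    rw [Finset.sum_apply]
    have h2 : ∀ b : s → Bool, ∏ i ∈ (Finset.univ : Finset s),
        (1 / 2 + (1 / 2 * sg (b i)) * sg (x (i : Γ))) =
        if b = (fun i : s => x i) then (1 : ℝ) else 0 := by
      intro b
      simp only [bit]
      by_cases hb : b = fun i : s => x i
      · rw [if_pos hb]
        exact Finset.prod_eq_one fun i _ => by rw [if_pos (congrFun hb i)]
      · rw [if_neg hb]
        obtain ⟨i, hi⟩ := Function.ne_iff.1 hb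
        exact Finset.prod_eq_zero (Finset.mem_univ i) (if_neg hi)
    rw [Finset.sum_congr rfl fun b _ => h2 b, Finset.sum_ite_eq']
    rw [indicator_apply, mem_cylinder]
    simp only [Finset.mem_filter, Finset.mem_univ, true_and]
    rfl
  rw [h1]
  exact Submodule.sum_mem _ fun b _ => prod_mem _ _ _ _

lemma exists_wpoly {f : (Γ → Bool) → ℝ} (hf : f ∈ W Γ) :
    ∃ c : Finset Γ →₀ ℝ, ∀ x, wpoly c x = f x := by
  unfold W at hf
  rw [Finsupp.mem_span_range_iff_exists_finsupp] at hf
  obtain ⟨c, hc⟩ := hf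
  refine ⟨c, fun x => ?_⟩
  rw [← hc]
  unfold wpoly
  rw [Finsupp.sum, Finsupp.sum, Finset.sum_apply]
  rfl

theorem t_DENS : P_DENS := by
  classical
  intro Γ _ B hB η hη
  have hdense : (nu Γ).MeasureDense (measurableCylinders (fun _ : Γ => Bool)) :=
    Measure.MeasureDense.of_generateFrom_isSetAlgebra_finite (nu Γ)
      isSetAlgebra_measurableCylinders generateFrom_measurableCylinders.symm
  obtain ⟨C, hC, hBC⟩ := hdense.approx B hB (measure_ne_top _ _) η hη
  obtain ⟨s, S, hS, rfl⟩ := (mem_measurableCylinders _).mp hC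
  obtain ⟨c, hc⟩ := exists_wpoly (cyl_mem s S)
  refine ⟨c, ?_⟩
  set C := cylinder (α := fun _ : Γ => Bool) s S with hCdef
  have hCm : MeasurableSet C := hS.cylinder
  have h1 : ∀ x : Γ → Bool, (B.indicator (fun _ => (1 : ℝ)) x - wpoly c x) ^ 2 =
      (B ∆ C).indicator (fun _ => (1 : ℝ)) x := by
    intro x
    rw [hc x]
    by_cases hxB : x ∈ B <;> by_cases hxC : x ∈ C <;>
      simp [indicator, hxB, hxC, mem_symmDiff]
  simp only [h1]
  have hBCm : MeasurableSet (B ∆ C) := hB.symmDiff hCm
  rw [integral_indicator_const _ hBCm, smul_eq_mul, mul_one]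
  have h2 : (nu Γ).real (B ∆ C) = ((nu Γ) (B ∆ C)).toReal := rfl
  rw [h2]
  exact (ENNReal.toReal_lt_of_lt_ofReal hBC)

end Run7.h313.SE
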